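import Pool.Agent.V8H68.FT.Fin
import Pool.Agent.V8H68.FT.Bc

/-!
# Abelian varieties over function fields: rank zero in infinite abelian towers

Let `K` be the function field of a curve over the finite field `k` with `q` elements, `A` an abelian
variety over `K`, `l` a prime number which does not divide `q`, and `M / K` an abelian extension,
finite or infinite, whose Galois group is killed by `l ^ n`. The places `v` of `K` which ramify in `M`
are supposed to be admissible: `A` is semistable at `v`, and `P_v(1 / q_v)` is not divisible by `l`;
for a place of good reduction this says that `l` does not divide the number of the points of the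
reduction. For a character `χ` of finite order of `Gal(M / K)` let `L(A, χ, T)` be the `L`-function of
`A` twisted by `χ`, in the variable `T = q ^ (-s)`. By Grothendieck `D(T) L(A, χ, T)` is a polynomial
`G_χ`, where `D = 1` unless `A` has an isotrivial factor, and `D(1 / q) ≠ 0` in general. If
`L(A / K, s)` does not vanish at `s = 1`, then `M / K`, if it is infinite, has an infinite subextension
`M' / K` such that `L(A / F, s)` does not vanish at `s = 1` for all finite subextensions `F` of `M'`; by
Tate the rank of `A(F)` is at most the order of vanishing, so that the rank form of the conjecture of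
Birch and Swinnerton-Dyer holds for `A` over all these fields `F`. It holds also for a positive
proportion of the subfields of a finite layer which are cut out by `r` characters, with a proportion
which depends only on `l ^ n`, `r` and the exponent of `l` in `L(A / K, 1)`.

The method: modulo a prime `p` above `l` of the ring `R` generated by the roots of unity of order
`l ^ n` and `1 / q` the central values of the twists are, up to units and for the characters of a finite
set, the values of a combination of characters of the group of the characters `χ`, with coefficients in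
`R`; iterated differences of such functions are divisible by powers of `p`. By Krull's intersection
theorem a value different from zero is not divisible by all powers of `p`, and so a translate of every
`χ` by an element of a fixed finite set gives a value different from zero; the same holds for the
products of the values over cosets, and finite groups of characters without zeros can be enlarged.

The theorem is stated and proved for every system of integral polynomials `P_v` with `P_v(0) = 1`.
-/

set_option autoImplicit false
set_option linter.unusedSectionVars false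

namespace Pool.Agent.Results.MP_1d384c_nt.FunctionFieldTowers

open FF Polynomial

/-- The characters of the Galois group of `M / K`. -/
abbrev Chr (K M : Type) [Field K] [Field M] [Algebra K M] : Type := (M ≃ₐ[K] M) →* ℂˣ

section galois

variable {K M : Type} [Field K] [Field M] [Algebra K M]

/-- `χ` is a character of `Gal(F / K)`: it is trivial on the automorphisms which are trivial on `F`. -/
def IsCharOf (F : IntermediateField K M) (χ : Chr K M) : Prop :=
  ∀ σ : M ≃ₐ[K] M, (∀ x ∈ F, σ x = x) → χ σ = 1

/-- `χ` is a character of the Galois group of a finite subextension of `M / K`. -/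
def IsFinChar (χ : Chr K M) : Prop :=
  ∃ F : IntermediateField K M, FiniteDimensional K F ∧ IsCharOf F χ

/-- The subfield of `M` cut out by the characters `c j`: the elements fixed by all `σ` with
`c j σ = 1` for all `j`. -/
def cutOut {r : ℕ} (c : Fin r → Chr K M) : IntermediateField K M :=
  IntermediateField.fixedField (⨅ j, (c j).ker)

end galois

section places

/-- The number `q_v` of the elements of the residue field of the place `v`. -/
noncomputable def size {k K : Type} [Field k] [Field K] [Algebra k K] (v : Place k K) : ℕ :=
  Nat.card (IsLocalRing.ResidueField v.O)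

/-- The degree `d` of the place `v`, `q_v = q ^ d`, where `q` is the number of the elements of `k`. -/
noncomputable def degree {k K : Type} [Field k] [Field K] [Algebra k K] (v : Place k K) : ℕ :=
  Nat.log (Nat.card k) (size v)

end places

section eulerProducts

variable {k L : Type} [Field k] [Field L] [Algebra k L]

/-- `P(z T ^ d)`. -/
noncomputable def factor (P : ℤ[X]) (z : ℂ) (d : ℕ) : ℂ[X] :=
  (P.map (Int.castRingHom ℂ)).comp (C z * X ^ d)

/-- The coefficient of index `n` of the product of the `P_v(z_v T ^ (deg v))` over all places `v` of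
`L`, which is the one of the product over the places of degree at most `n`. -/
noncomputable def coefficient (P : Place k L → ℤ[X]) (z : Place k L → ℂ) (n : ℕ) : ℂ :=
  PowerSeries.coeff n
    (∏ᶠ (v : Place k L) (_ : degree v ≤ n), (factor (P v) (z v) (degree v) : PowerSeries ℂ))

/-- `G` is `D` times the `L`-function with the Euler factors `P_v(z_v T ^ (deg v))⁻¹`: the product of
`G` and the power series with the coefficients `coefficient P z n` is `D`. -/
def IsLFun (P : Place k L → ℤ[X]) (D : ℤ[X]) (z : Place k L → ℂ) (G : ℂ[X]) : Prop :=
  (G : PowerSeries ℂ) * PowerSeries.mk (coefficient P z) =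
    ((D.map (Int.castRingHom ℂ) : ℂ[X]) : PowerSeries ℂ)

/-- `P'(X ^ f)` is the product of the `P(ζ X)` over the roots of unity `ζ` with `ζ ^ f = 1`. -/
def IsBase (f : ℕ) (P P' : ℤ[X]) : Prop :=
  (P'.map (Int.castRingHom ℂ)).comp (X ^ f) = ∏ ζ ∈ nthRootsFinset f (1 : ℂ), factor P ζ 1

/-- The value at the centre `T = 1 / q`. -/
noncomputable def centre (k : Type) [Field k] (G : ℂ[X]) : ℂ := G.eval ((Nat.card k : ℂ)⁻¹)

/-- The value at the centre of an integral polynomial. -/
noncomputable def centreQ (k : Type) [Field k] (G : ℤ[X]) : ℚ :=
  (G.map (Int.castRingHom ℚ)).eval ((Nat.card k : ℚ)⁻¹)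

end eulerProducts

section layers

variable {k K M : Type} [Field k] [Field K] [Algebra k K] [Field M] [Algebra k M] [Algebra K M]
  [IsScalarTower k K M]

/-- `σ` acts as `x ↦ x ^ Q` on the residue fields of the places of the layer `F` above `v`: for the
elements `x` of `F` which are regular at such a place `w`, the difference `σ(x) - x ^ Q` is an element
of `F` which is zero or has a zero at `w`. For `Q = 1` these are the inertia elements at `v`, for
`Q = q_v` the Frobenius elements at `v`. -/
def ActsAs (F : IntermediateField K M) (v : Place k K) (Q : ℕ) (σ : M ≃ₐ[K] M) : Prop :=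
  ∀ (w : Place k F) (e : ℕ), Over w v e → ∀ x y : F, w.Reg x → σ x = y →
    y - x ^ Q = 0 ∨ 0 < w.ord (y - x ^ Q)

/-- In a finite layer `F` through which `χ` factors, `χ` is trivial on the inertia elements at `v` and
its value on the Frobenius elements at `v` is `z`. -/
def HasValue (χ : Chr K M) (v : Place k K) (z : ℂ) : Prop :=
  ∃ F : IntermediateField K M, FiniteDimensional K F ∧ IsCharOf F χ ∧
    (∀ σ, ActsAs F v 1 σ → χ σ = 1) ∧ ∀ σ, ActsAs F v (size v) σ → (χ σ : ℂ) = z

open Classical in
/-- The value of the character `χ` at the place `v`: the value on the Frobenius elements at `v` if `χ`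
is unramified at `v`, and `0` otherwise. -/
noncomputable def value (χ : Chr K M) (v : Place k K) : ℂ :=
  if h : ∃ z : ℂ, HasValue χ v z then h.choose else 0

/-- `P'` is the base change of `P` to `F`: for the places `w` of `F` above `v`, of residue degree `f`,
`P'_w` is the base change of `P_v` of degree `f`. -/
def IsBaseChange (P : Place k K → ℤ[X]) (F : IntermediateField K M) (P' : Place k F → ℤ[X]) :
    Prop :=
  ∀ (w : Place k F) (v : Place k K) (e f : ℕ), Over w v e → degree w = degree v * f →
    IsBase f (P v) (P' w)

/-- `G` is the product of `D ^ [F : K]` and the `L`-function over `F`, for every base change `P'` of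
`P` to `F`. -/
def IsLFunOver (P : Place k K → ℤ[X]) (D : ℤ[X]) (F : IntermediateField K M) (G : ℂ[X]) : Prop :=
  ∀ P' : Place k F → ℤ[X], IsBaseChange P F P' →
    IsLFun P' (D ^ Module.finrank K F) (fun _ => 1) G

/-- The `L`-function over `F` does not vanish at the centre. -/
def NonvanishingOver (P : Place k K → ℤ[X]) (D : ℤ[X]) (F : IntermediateField K M) : Prop :=
  ∃ G : ℂ[X], IsLFunOver P D F G ∧ centre k G ≠ 0

/-- For the places `v` which ramify in a finite layer, `P_v(1 / q_v)` is not zero modulo `l`. -/
def IsAdmissible (M : Type) [Field M] [Algebra k M] [Algebra K M] [IsScalarTower k K M] (l : ℕ)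
    (P : Place k K → ℤ[X]) : Prop :=
  ∀ F : IntermediateField K M, FiniteDimensional K F →
    ∀ (w : Place k F) (v : Place k K) (e : ℕ), Over w v e → e ≠ 1 →
      ((P v).map (Int.castRingHom (ZMod l))).eval ((size v : ZMod l)⁻¹) ≠ 0

/-- `l` is a prime number which does not divide `q`, `1 ≤ n`, the Galois group of `M / K` is killed by
`l ^ n`; `P_v(0) = 1` for all `v`, `P_v(1 / q_v)` is not zero modulo `l` for the places `v` which
ramify in `M`, and for every character `χ` of a finite subextension, `G_χ` is `D` times the
`L`-function of the twist by `χ`. -/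
structure IsSystem (l n : ℕ) (P : Place k K → ℤ[X]) (D : ℤ[X]) (G : Chr K M → ℂ[X]) : Prop where
  prime : l.Prime
  one_le : 1 ≤ n
  not_dvd : ¬ l ∣ Nat.card k
  exponent : ∀ σ : M ≃ₐ[K] M, σ ^ (l ^ n) = 1
  const : ∀ v, (P v).coeff 0 = 1
  admissible : IsAdmissible M l P
  twists : ∀ χ : Chr K M, IsFinChar χ → IsLFun P D (value χ) (G χ)

end layers

section conclusions

variable {k K M : Type} [Field k] [Field K] [Algebra k K] [Field M] [Algebra k M] [Algebra K M]
  [IsScalarTower k K M]

/-- For every finite layer `F` there are base changes of `P` to `F`, and for all of them the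
`L`-function over `F` is the product of the `L`-functions of the twists by the characters of
`Gal(F / K)`. -/
def ProductOfTwists (P : Place k K → ℤ[X]) (D : ℤ[X]) (G : Chr K M → ℂ[X]) : Prop :=
  ∀ F : IntermediateField K M, FiniteDimensional K F →
    (∃ P' : Place k F → ℤ[X], IsBaseChange P F P') ∧
      IsLFunOver P D F (∏ᶠ (χ : Chr K M) (_ : IsCharOf F χ), G χ)

/-- The number of the characters `χ` of `Gal(F / K)` for which `G_{χ₀ χ}` does not vanish at the
centre. -/
noncomputable def numTwists (k : Type) [Field k] (G : Chr K M → ℂ[X]) (χ₀ : Chr K M)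
    (F : IntermediateField K M) : ℕ :=
  {χ : Chr K M | IsCharOf F χ ∧ centre k (G (χ₀ * χ)) ≠ 0}.ncard

/-- The number of the tuples of `r` characters of `Gal(F / K)` such that the `L`-function over the
field cut out by the tuple does not vanish at the centre. -/
noncomputable def numFields (P : Place k K → ℤ[X]) (D : ℤ[X]) (F : IntermediateField K M)
    (r : ℕ) : ℕ :=
  {c : Fin r → Chr K M | (∀ j, IsCharOf F (c j)) ∧ NonvanishingOver P D (cutOut c)}.ncard

/-- The consequences of the non-vanishing of the twist by `χ₀`: a positive proportion, the same for all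
finite layers, of the twists by `χ₀ χ` do not vanish, and there is an infinite subextension `M'` of `M`,
if `M` itself is infinite, such that the twists by `χ₀ χ` do not vanish for all characters `χ` of
`Gal(M' / K)`. -/
def OneGivesMany (k : Type) [Field k] (G : Chr K M → ℂ[X]) (χ₀ : Chr K M) : Prop :=
  (∃ V : ℕ, ∀ F : IntermediateField K M, FiniteDimensional K F →
    Module.finrank K F ≤ 2 ^ V * numTwists k G χ₀ F) ∧
  (¬ FiniteDimensional K M → ∃ M' : IntermediateField K M, ¬ FiniteDimensional K M' ∧
    ∀ χ : Chr K M, IsFinChar χ → IsCharOf M' χ → centre k (G (χ₀ * χ)) ≠ 0)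

/-- For every finite layer `F` the proportion of the characters `χ` of `Gal(F / K)` such that `G_χ`
does not vanish at the centre is at least `2 ^ (-V)`, and the proportion of the tuples of `r` characters
such that the `L`-function over the field cut out by the tuple does not vanish at the centre is at least
`2 ^ (-V m ^ r)`. -/
def Proportions (P : Place k K → ℤ[X]) (D : ℤ[X]) (G : Chr K M → ℂ[X]) (V m : ℕ) : Prop :=
  ∀ F : IntermediateField K M, FiniteDimensional K F →
    Module.finrank K F ≤ 2 ^ V * numTwists k G 1 F ∧
      ∀ r : ℕ, Module.finrank K F ^ r ≤ 2 ^ (V * m ^ r) * numFields P D F r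

/-- There is an infinite subextension `M'` of `M` such that for all finite subextensions `F` of `M'`
the `L`-function over `F` does not vanish at the centre. -/
def InfiniteTower (P : Place k K → ℤ[X]) (D : ℤ[X]) (M : Type) [Field M] [Algebra k M]
    [Algebra K M] [IsScalarTower k K M] : Prop :=
  ∃ M' : IntermediateField K M, ¬ FiniteDimensional K M' ∧
    ∀ F : IntermediateField K M, F ≤ M' → FiniteDimensional K F → NonvanishingOver P D F

end conclusions

section bridge

open Pool.Agent.W343.BSD Pool.Agent.V8H68.FT

theorem degree_eq {k K : Type} [Field k] [Finite k] [Field K] [Algebra k K] [FF.IsFF k K]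
    (v : Place k K) : degree v = v.deg := by
  have h1 : size v = Nat.card k ^ v.deg := H107R3.ZT.card_RF v
  unfold degree
  rw [h1]
  exact Nat.log_pow Finite.one_lt_card _

theorem factor_eq (P : ℤ[X]) (z : ℂ) (d : ℕ) : (factor P z d : PowerSeries ℂ) = fac P z d := by
  unfold fac
  rw [facP_eq]
  rfl

theorem isLFun_iff {k L : Type} [Field k] [Finite k] [Field L] [Algebra k L] [FF.IsFF k L]
    {P : Place k L → ℤ[X]} {D : ℤ[X]} {z : Place k L → ℂ} {G : ℂ[X]} :
    IsLFun P D z G ↔ IsQuot (fun v : Place k L => v.deg) P D z G := by
  have h1 : PowerSeries.mk (coefficient P z) =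
      eulerProd (fun v : Place k L => v.deg) (fun v => fac (P v) (z v) v.deg) := by
    unfold eulerProd coefficient
    congr 1
    funext n
    congr 1
    refine finprod_congr fun v => ?_
    rw [degree_eq, factor_eq]
  unfold IsLFun IsQuot
  rw [h1]

theorem isBase_iff {f : ℕ} {P P' : ℤ[X]} : IsBase f P P' ↔ BC f P P' := by
  unfold IsBase BC factor
  simp only [pow_one]

section

variable {K M : Type} [Field K] [Field M] [Algebra K M]

theorem isCharOf_iff {F : IntermediateField K M} {χ : Chr K M} :
    IsCharOf F χ ↔ F.fixingSubgroup ≤ χ.ker := by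
  constructor
  · intro h σ hσ
    exact h σ ((IntermediateField.mem_fixingSubgroup_iff F σ).1 hσ)
  · intro h σ hσ
    exact h ((IntermediateField.mem_fixingSubgroup_iff F σ).2 hσ)

theorem isFinChar_iff [IsAbelianGalois K M] {χ : Chr K M} : IsFinChar χ ↔ IsCh χ :=
  exists_congr fun _ => and_congr_right fun _ => isCharOf_iff

end

variable {k K M : Type} [Field k] [Finite k] [Field K] [Algebra k K] [FF.IsFF k K] [Field M]
  [Algebra k M] [Algebra K M] [IsScalarTower k K M] [IsAbelianGalois K M]

theorem actsAs_iff {F : IntermediateField K M} {v : Place k K} {Q : ℕ} {σ : M ≃ₐ[K] M} :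
    ActsAs F v Q σ ↔ IsFr F v Q σ := by
  refine forall_congr' fun w => forall_congr' fun e => forall_congr' fun _ => ?_
  rw [frAt_iff]
  constructor
  · intro h x hx
    exact h x _ hx (restrict_apply F σ x).symm
  · intro h x y hx hy
    have h1 : y = AlgEquiv.restrictNormalHom F σ x :=
      Subtype.ext (hy.symm.trans (restrict_apply F σ x).symm)
    rw [h1]
    exact h x hx

theorem value_eq (χ : Chr K M) (v : Place k K) : value χ v = val χ v := by
  have hp : HasValue χ v = fun z => ∃ F : IntermediateField K M, FiniteDimensional K F ∧
      F.fixingSubgroup ≤ χ.ker ∧ (∀ σ, IsFr F v 1 σ → χ σ = 1) ∧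
      (∀ σ, IsFr F v (Nat.card v.RF) σ → (χ σ : ℂ) = z) := by
    funext z
    refine propext (exists_congr fun F => and_congr_right fun _ => and_congr isCharOf_iff ?_)
    refine and_congr (forall_congr' fun σ => ?_) (forall_congr' fun σ => ?_)
    · rw [actsAs_iff]
    · rw [actsAs_iff]
      rfl
  unfold value val
  rw [hp]

theorem isBaseChange_iff {P : Place k K → ℤ[X]} {F : IntermediateField K M}
    [FiniteDimensional K F] {P' : Place k F → ℤ[X]} : IsBaseChange P F P' ↔ IsBC P F P' := by
  unfold IsBaseChange IsBC
  refine forall_congr' fun w => forall_congr' fun v => forall_congr' fun e => forall_congr' fun f =>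
    forall_congr' fun _ => ?_
  rw [degree_eq, degree_eq, isBase_iff]

theorem nonvanishingOver_iff {P : Place k K → ℤ[X]} {D : ℤ[X]} {F : IntermediateField K M}
    [FiniteDimensional K F] : NonvanishingOver P D F ↔ NonVan k P D F := by
  unfold NonvanishingOver NonVan IsLFunOver centre
  refine exists_congr fun G => ?_
  rw [and_comm]
  refine and_congr_right fun _ => forall_congr' fun P' => ?_
  rw [isBaseChange_iff, isLFun_iff]

theorem cutOut_finite {F : IntermediateField K M} [FiniteDimensional K F] {r : ℕ}
    {c : Fin r → Chr K M} (hc : ∀ j, IsCharOf F (c j)) : FiniteDimensional K (cutOut c) := by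
  have h1 : F.fixingSubgroup ≤ ⨅ j, (c j).ker := le_iInf fun j => isCharOf_iff.1 (hc j)
  have h2 : cutOut c ≤ F := by
    have := IntermediateField.fixedField_antitone h1
    rwa [InfiniteGalois.fixedField_fixingSubgroup] at this
  exact FiniteDimensional.of_injective (IntermediateField.inclusion h2).toLinearMap
    (IntermediateField.inclusion_injective h2)

theorem numTwists_eq (G : Chr K M → ℂ[X]) (χ₀ : Chr K M) (F : IntermediateField K M) :
    numTwists k G χ₀ F = Nat.card {χ : Chr K M // F.fixingSubgroup ≤ χ.ker ∧
      (G (χ₀ * χ)).eval ((Nat.card k : ℂ)⁻¹) ≠ 0} := by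
  unfold numTwists
  rw [← Nat.card_coe_set_eq]
  exact Nat.card_congr (Equiv.subtypeEquivRight fun χ => and_congr_left fun _ => isCharOf_iff)

theorem numFields_eq (P : Place k K → ℤ[X]) (D : ℤ[X]) (F : IntermediateField K M)
    [FiniteDimensional K F] (r : ℕ) :
    numFields P D F r = Nat.card {c : Fin r → Chr K M // (∀ j, F.fixingSubgroup ≤ (c j).ker) ∧
      NonVan k P D (IntermediateField.fixedField (⨅ j, (c j).ker))} := by
  unfold numFields
  rw [← Nat.card_coe_set_eq]
  refine Nat.card_congr (Equiv.subtypeEquivRight fun c => ?_)
  show (∀ j, IsCharOf F (c j)) ∧ NonvanishingOver P D (cutOut c) ↔ _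
  constructor
  · rintro ⟨h1, h2⟩
    have := cutOut_finite h1
    exact ⟨fun j => isCharOf_iff.1 (h1 j), (nonvanishingOver_iff (F := cutOut c)).1 h2⟩
  · rintro ⟨h1, h2⟩
    have h3 : ∀ j, IsCharOf F (c j) := fun j => isCharOf_iff.2 (h1 j)
    have := cutOut_finite h3
    exact ⟨h3, (nonvanishingOver_iff (F := cutOut c)).2 h2⟩

end bridge

/-- **Main theorem.**

1. For every finite layer `F` there are base changes of `P` to `F`, and for all of them the `L`-function
   over `F` is the product of the `L`-functions of the twists by the characters of `Gal(F / K)`.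
2. If one twist, by `χ₀`, does not vanish at the centre, then there is a `V` such that for every finite
   layer `F` at least `[F : K] / 2 ^ V` of the twists by `χ₀ χ`, `χ` a character of `Gal(F / K)`, do not
   vanish; and if `M / K` is infinite, there is an infinite subextension `M' / K` such that none of the
   twists by `χ₀ χ`, `χ` a character of `Gal(M' / K)`, vanishes.
3. If the `L`-function `G₀` over `K` does not vanish at the centre, let `a` be the exponent of `l` in
   `G₀(1 / q)`. For every finite layer `F` at least `[F : K] / 2 ^ (φ(l ^ n) a)` of the twists by the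
   characters of `Gal(F / K)` do not vanish, and for at least `[F : K] ^ r / 2 ^ (φ(l ^ n) a l ^ (n r))`
   of the tuples of `r` such characters the `L`-function over the field cut out by the tuple does not
   vanish. If `M / K` is infinite, there is an infinite subextension `M' / K` such that the
   `L`-function over `F` does not vanish at the centre for all finite subextensions `F` of `M'`. -/
theorem result (k K M : Type) [Field k] [Finite k] [Field K] [Algebra k K] [FF.IsFF k K]
    [Field M] [Algebra k M] [Algebra K M] [IsScalarTower k K M] [IsAbelianGalois K M]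
    (l n : ℕ) (P : Place k K → ℤ[X]) (D : ℤ[X]) (G : Chr K M → ℂ[X]) (h : IsSystem l n P D G) :
    ProductOfTwists P D G ∧
    (∀ χ₀ : Chr K M, IsFinChar χ₀ → centre k (G χ₀) ≠ 0 → OneGivesMany k G χ₀) ∧
    ∃ G₀ : ℤ[X], G₀.map (Int.castRingHom ℂ) = G 1 ∧ (centreQ k G₀ ≠ 0 → ∃ a : ℕ,
      (a : ℤ) = padicValRat l (centreQ k G₀) ∧
      Proportions P D G ((l ^ n).totient * a) (l ^ n) ∧
      (¬ FiniteDimensional K M → InfiniteTower P D M)) := by
  have hG : ∀ χ : Chr K M, Pool.Agent.V8H68.FT.IsCh χ →
      Pool.Agent.V8H68.FT.IsQuot (fun v : Place k K => v.deg) P D (Pool.Agent.V8H68.FT.val χ)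
        (G χ) := by
    intro χ hχ
    have h1 := isLFun_iff.1 (h.twists χ (isFinChar_iff.2 hχ))
    have h2 : value (k := k) χ = Pool.Agent.V8H68.FT.val χ := funext fun v => value_eq χ v
    rwa [h2] at h1
  have hadm : Pool.Agent.V8H68.FT.Adm k (M := M) l P := h.admissible
  refine ⟨fun F hF => ⟨?_, fun P' hP' => ?_⟩, fun χ₀ hχ₀ h0 => ?_, ?_⟩
  · obtain ⟨P', hP'⟩ := Pool.Agent.V8H68.FT.exists_isBC P F
    exact ⟨P', isBaseChange_iff.2 hP'⟩
  · rw [isLFun_iff]
    have h1 := Pool.Agent.V8H68.FT.artin h.const hG (isBaseChange_iff.1 hP')
    rw [finprod_subtype_eq_finprod_cond] at h1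
    have h2 : (∏ᶠ (χ : Chr K M) (_ : IsCharOf F χ), G χ) =
        ∏ᶠ (χ : Chr K M) (_ : F.fixingSubgroup ≤ χ.ker), G χ := by
      refine finprod_congr fun χ => ?_
      rw [isCharOf_iff]
    rw [h2]
    exact h1
  · obtain ⟨⟨V, hV⟩, h2⟩ := Pool.Agent.V8H68.FT.one_implies h.prime h.not_dvd h.exponent h.const
      hadm hG (isFinChar_iff.1 hχ₀) h0
    refine ⟨⟨V, fun F hF => ?_⟩, fun hinf => ?_⟩
    · rw [numTwists_eq]
      exact hV F hF
    · obtain ⟨M', hM', h3⟩ := h2 hinf
      exact ⟨M', hM', fun χ h4 h5 => h3 χ ⟨isFinChar_iff.1 h4, isCharOf_iff.1 h5⟩⟩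
  · obtain ⟨G₀, hG₀⟩ := Pool.Agent.V8H68.FT.exists_int_poly h.const hG
    refine ⟨G₀, hG₀, fun h1 => ⟨(padicValRat l (centreQ k G₀)).toNat,
      Int.toNat_of_nonneg (Pool.Agent.V8H68.FT.value_nonneg h.prime h.not_dvd h1),
      fun F hF => ⟨?_, fun r => ?_⟩, fun hinf => ?_⟩⟩
    · have h2 := Pool.Agent.V8H68.FT.proportion_chars h.prime h.not_dvd h.exponent h.const hadm hG
        h.one_le hG₀ h1 F
      have h3 : numTwists k G 1 F = Nat.card {χ : (M ≃ₐ[K] M) →* ℂˣ //
          F.fixingSubgroup ≤ χ.ker ∧ (G χ).eval ((Nat.card k : ℂ)⁻¹) ≠ 0} := by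
        rw [numTwists_eq]
        refine Nat.card_congr (Equiv.subtypeEquivRight fun χ => ?_)
        have e1 : 1 * χ = χ := MonoidHom.ext fun σ => one_mul _
        rw [e1]
      rw [h3]
      exact h2
    · have h2 := Pool.Agent.V8H68.FT.proportion_fields h.prime h.not_dvd h.exponent h.const hadm hG
        h.one_le hG₀ h1 F r
      rw [← mul_assoc] at h2
      rw [numFields_eq]
      exact h2
    · obtain ⟨M', hM', h3⟩ := Pool.Agent.V8H68.FT.towers h.prime h.not_dvd h.exponent h.const hadm
        hG (by
          rw [← hG₀]
          intro h2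
          apply h1
          have h4 : (Int.castRingHom ℂ) = (algebraMap ℚ ℂ).comp (Int.castRingHom ℚ) :=
            RingHom.ext_int _ _
          have h5 : ((Nat.card k : ℂ)⁻¹) = algebraMap ℚ ℂ ((Nat.card k : ℚ)⁻¹) := by
            rw [map_inv₀, map_natCast]
          rw [h4, ← Polynomial.map_map, eval_map, h5, eval₂_at_apply] at h2
          exact (map_eq_zero _).1 h2) hinf
      exact ⟨M', hM', fun F hF hfin => nonvanishingOver_iff.2 (h3 F hF hfin)⟩

end Pool.Agent.Results.MP_1d384c_nt.FunctionFieldTowers
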