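import Pool.Agent.V8H30.HT.Sup

/-!
# Half of the quadratic twists of the abelian varieties of all dimensions over `k(t)` whose points of
order three have a filtration with constant quotients of order three

Let `k` be a finite field with `q` elements, of characteristic at least five, with `3 ∣ q - 1`. We
consider the abelian varieties `A` over `k(t)` for which the Galois module `A[3]` is an iterated
extension of copies of `ℤ/3` with the trivial action. Examples are the Jacobians of all the curves
`y ^ 3 = ∏ (x - f_i) ^ a_i` with `f_i ∈ k(t)`; their dimension is not bounded.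

For at least half of the squarefree polynomials `D` of large odd degree such that no place in a given
finite set `B` splits in `k(t)(√D)` the following holds for all `A` as above, of all dimensions, with
good reduction outside `B` at once: the `L`-function of the twist `A_D` does not vanish at `1 / q`, and
`L(A_D, 1 / q)` is prime to three. By Tate's inequality (rank ≤ order) rank and order of vanishing of
`A_D` are both zero. The same holds over all the extensions of `k(t)` of degree a power of three in
which no place ramifies that splits in `k(t)(√D)`.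
-/

set_option autoImplicit false
set_option linter.all false
set_option maxHeartbeats 4000000

open Polynomial Filter Pool.Agent.W343.BSD

namespace Pool.Agent.Results.MP_1d384c_nt.HalfOfTwistsAllDimensions

section defs

variable {k K : Type} [Field k] [Field K] [Algebra k K]

/-- The element `u` is a square in the completion of `K` at `v`: if `u` is not a square in `K`, then
`v` splits in `K(√u)`. -/
def Splits (v : FF.Place k K) (u : K) : Prop :=
  ∃ s : K, u = s ^ 2 ∨ v.ord u < v.ord (u - s ^ 2)

open Classical in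
/-- The value at `v` of the quadratic character of `K(√u)`: it is `0`, `1`, `-1` if `v` is ramified,
split, inert. -/
noncomputable def sign (v : FF.Place k K) (u : K) : ℤ :=
  if Odd (v.ord u) then 0 else if Splits v u then 1 else -1

/-- The polynomials `P_v ∈ ℤ[T]`, one for each place `v` of `K`, have constant term `1` and are
congruent modulo `ℓ` to powers of `1 - T`, with the exponent `n` outside a finite set of places and
exponents at most `n` everywhere.

For an abelian variety `A` of dimension `g` over `K`, let `P_v(T) = det(1 - Frob_v T | V ^ I_v)`,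
`V = H¹(A, ℚ_ℓ')`, be its Euler factors: `L(A, T) = ∏ P_v(T ^ (deg v))⁻¹`. They have this property with
`n = 2 g` if `A[ℓ]` is an iterated extension of copies of `ℤ/ℓ` with the trivial Galois action,
and then the exponent is `2 g` at all the places of good reduction. -/
structure IsUnipotent (ℓ n : ℕ) (P : FF.Place k K → ℤ[X]) : Prop where
  constant : ∀ v, (P v).coeff 0 = 1
  unipotent : ∀ v, ∃ m ≤ n, (P v).map (Int.castRingHom (ZMod ℓ)) = (1 - X) ^ m
  finite : {v | (P v).map (Int.castRingHom (ZMod ℓ)) ≠ (1 - X) ^ n}.Finite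

/-- `∏ P_v(χ(v) T ^ (deg v))⁻¹ = G(T)`, where `χ` is the quadratic character of `K(√u)`.

For the Euler factors `P_v` of an abelian variety `A` as in the definition of `IsUnipotent`, `ℓ` odd,
the product is the `L`-function of the quadratic twist `A_u`: at the places at which `K(√u)` is not
ramified this is clear, and at the other places the inertia group acts on the `ℓ`-adic Tate module of
`A` by a group with a filtration by `ℓ`-groups and on that of `A_u` by the product of this action with
a character of order two, so that there are no invariants and the Euler factor is `1`. -/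
def IsTwistL (k : Type) {K : Type} [Field k] [Field K] [Algebra k K] (P : FF.Place k K → ℤ[X])
    (u : K) (G : ℤ[X]) : Prop :=
  (G : PowerSeries ℤ) * eulerProd (fun v : FF.Place k K => S.deg v)
    (fun v => (((P v).comp (C (sign v u) * X ^ S.deg v) : ℤ[X]) : PowerSeries ℤ)) = 1

open Classical in
/-- The sum over the places `v` which split in `K(√u)` of `(n - m_v) ℓ ^ v_ℓ(deg v)`, where `m_v` is the
exponent with `P_v = (1 - T) ^ m_v` modulo `ℓ`. -/
noncomputable def weightSum (ℓ n : ℕ) (P : FF.Place k K → ℤ[X]) (u : K) : ℕ :=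
  ∑ᶠ v : FF.Place k K, if Splits v u then
    (n - ((P v).map (Int.castRingHom (ZMod ℓ))).natDegree) * ℓ ^ padicValNat ℓ (S.deg v) else 0

/-- The order of vanishing of `G` at `1 / |k|`. -/
noncomputable def order (k : Type) (G : ℤ[X]) : ℕ :=
  (G.map (Int.castRingHom ℚ)).rootMultiplicity (((Nat.card k : ℕ) : ℚ)⁻¹)

/-- The order of vanishing of `G` modulo `ℓ` at `1 / |k|`. It is zero if and only if `G(1 / |k|)` is
not zero and prime to `ℓ`. -/
noncomputable def orderMod (ℓ : ℕ) (k : Type) (G : ℤ[X]) : ℕ :=
  (G.map (Int.castRingHom (ZMod ℓ))).rootMultiplicity ((Nat.card k : ℕ) : ZMod ℓ)⁻¹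

/-- `P` is the numerator of the zeta function of the smooth projective curve with function field
`κ(x, y)`, `y ^ ℓ = ∏ (x - c_i) ^ a_i`, over the finite field `κ`. -/
def IsCurveNumerator (κ : Type) [Field κ] (ℓ : ℕ) {r : ℕ} (c : Fin r → κ) (a : Fin r → ℕ)
    (P : ℤ[X]) : Prop :=
  ∃ (F : Type) (_ : Field F) (_ : Algebra κ F) (_ : Algebra (RatFunc κ) F)
    (_ : IsScalarTower κ (RatFunc κ) F) (y : F),
    y ^ ℓ = algebraMap (RatFunc κ) F (algebraMap κ[X] (RatFunc κ) (∏ i, (X - C (c i)) ^ a i)) ∧
    IntermediateField.adjoin (RatFunc κ) {y} = ⊤ ∧ S.IsZetaNum κ F P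

/-- The `f_i` are regular at `v` and their values at `v` are different. -/
def IsGood {r : ℕ} (v : FF.Place k K) (f : Fin r → K) : Prop :=
  (∀ i, v.Reg (f i)) ∧ Function.Injective fun i => S.red v (f i)

/-- Twice the genus of the curve `y ^ ℓ = ∏ (x - f_i) ^ a_i` with `ℓ` prime to the `a_i`: the point
at infinity is a branch point if `ℓ` does not divide the sum of the `a_i`. -/
def twiceGenus {r : ℕ} (ℓ : ℕ) (a : Fin r → ℕ) : ℕ :=
  (ℓ - 1) * ((r + if ℓ ∣ ∑ i, a i then 0 else 1) - 2)

/-- For the Jacobian `J` of the curve `y ^ ℓ = ∏ (x - f_i) ^ a_i` over `K`: the polynomials `P_v` are the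
numerators of the zeta functions of the reductions of the curve at the places `v` at which the `f_i`
are regular with different values, and at the other places they have constant term `1` and are
congruent modulo `ℓ` to a power of `1 - T` with exponent at most twice the genus. The Euler factors
of `J` have these properties. -/
structure IsSuperelliptic {r : ℕ} (ℓ : ℕ) (f : Fin r → K) (a : Fin r → ℕ)
    (P : FF.Place k K → ℤ[X]) : Prop where
  good : ∀ v, IsGood v f → IsCurveNumerator (S.Res v) ℓ (fun i => S.red v (f i)) a (P v)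
  bad : ∀ v, ¬ IsGood v f → (P v).coeff 0 = 1 ∧
    ∃ m ≤ twiceGenus ℓ a, (P v).map (Int.castRingHom (ZMod ℓ)) = (1 - X) ^ m

/-- The place `w` of `L` lies over the place `v` of `K`, with ramification index `e`. -/
def LiesOver {k K L : Type} [Field k] [Field K] [Algebra k K] [Field L] [Algebra k L] [Algebra K L]
    (w : FF.Place k L) (v : FF.Place k K) (e : ℕ) : Prop :=
  0 < e ∧ ∀ x : K, w.ord (algebraMap K L x) = e * v.ord x

/-- The field `L` is contained in a Galois extension of `K` of degree a power of three in which the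
places of `K` in `T` are not ramified. -/
def InThreeExtension (k K L : Type) [Field k] [Field K] [Field L] [Algebra k K] [Algebra k L]
    [Algebra K L] (T : Set (FF.Place k K)) : Prop :=
  ∃ (L' : Type) (_ : Field L') (_ : Algebra k L') (_ : Algebra K L') (_ : Algebra L L'),
    IsScalarTower k K L' ∧ IsScalarTower K L L' ∧ FiniteDimensional K L' ∧ IsGalois K L' ∧
      (∃ n : ℕ, Module.finrank K L' = 3 ^ n) ∧
      ∀ v ∈ T, ∀ (w : FF.Place k L') (e : ℕ), LiesOver w v e → e = 1

end defs

section poly

variable {k : Type} [Field k]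

/-- The polynomial `D` as an element of `k(t)`. -/
noncomputable abbrev el (D : k[X]) : RatFunc k := algebraMap k[X] (RatFunc k) D

/-- The squarefree polynomials `D` of degree `n` such that no place in `B` splits in `k(t)(√D)`. -/
def NonSplitTwists (B : Finset (FF.Place k (RatFunc k))) (n : ℕ) : Set k[X] :=
  {D | D.natDegree = n ∧ Squarefree D ∧ ∀ v ∈ B, ¬ Splits v (el D)}

/-- For all `n` and all the systems `P` over `k(t)` which are unipotent modulo three, the order of
vanishing modulo three of the `L`-function of the twist by `D` is exactly `weightSum`. Over all the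
fields `L` contained in a Galois extension of `k(t)` of degree a power of three in which no place
ramifies which splits in `k(t)(√D)`, it is at most `weightSum`, and so is the order of vanishing. -/
def Controls (k : Type) [Field k] (D : k[X]) : Prop :=
  (∀ (n : ℕ) (P : FF.Place k (RatFunc k) → ℤ[X]), IsUnipotent 3 n P → ∀ G : ℤ[X],
    IsTwistL k P (el D) G → orderMod 3 k G = weightSum 3 n P (el D)) ∧
  ∀ (L : Type) [Field L] [Algebra k L] [Algebra (RatFunc k) L] [IsScalarTower k (RatFunc k) L],
    InThreeExtension k (RatFunc k) L {v | Splits v (el D)} →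
    ∀ (n : ℕ) (P : FF.Place k L → ℤ[X]), IsUnipotent 3 n P → ∀ G : ℤ[X],
      IsTwistL k P (algebraMap (RatFunc k) L (el D)) G →
        order k G ≤ orderMod 3 k G ∧
        orderMod 3 k G ≤ weightSum 3 n P (algebraMap (RatFunc k) L (el D))

/-- For `L = k(t)` and all the fields `L` contained in a Galois extension of `k(t)` of degree a
power of three in which no place ramifies which splits in `k(t)(√D)`, all `n` and all the systems `P`
over `L` which are unipotent modulo three, with exponent `n` at all the places which do not lie over the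
places in `B`: the `L`-function `G` of the twist by `D` does not vanish at `1 / |k|`, and
`G(1 / |k|)` is prime to three. -/
def NonVanishing (k : Type) [Field k] (B : Finset (FF.Place k (RatFunc k))) (D : k[X]) : Prop :=
  (∀ (n : ℕ) (P : FF.Place k (RatFunc k) → ℤ[X]), IsUnipotent 3 n P →
    (∀ v, v ∉ B → (P v).map (Int.castRingHom (ZMod 3)) = (1 - X) ^ n) →
    ∀ G : ℤ[X], IsTwistL k P (el D) G → order k G = 0 ∧ orderMod 3 k G = 0) ∧
  ∀ (L : Type) [Field L] [Algebra k L] [Algebra (RatFunc k) L] [IsScalarTower k (RatFunc k) L],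
    InThreeExtension k (RatFunc k) L {v | Splits v (el D)} →
    ∀ (n : ℕ) (P : FF.Place k L → ℤ[X]), IsUnipotent 3 n P →
    (∀ w, (P w).map (Int.castRingHom (ZMod 3)) ≠ (1 - X) ^ n → ∃ v ∈ B, ∃ e, LiesOver w v e) →
    ∀ G : ℤ[X], IsTwistL k P (algebraMap (RatFunc k) L (el D)) G →
      order k G = 0 ∧ orderMod 3 k G = 0

end poly

section proof

open Pool.Agent.V8H30

theorem sign_eq {k K : Type} [Field k] [Field K] [Algebra k K] (v : FF.Place k K) (u : K) :
    sign v u = TH639.B3.chi v u := rfl

theorem uni_iff {k K : Type} [Field k] [Field K] [Algebra k K] {ℓ n : ℕ}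
    {P : FF.Place k K → ℤ[X]} : IsUnipotent ℓ n P ↔ HT.IsUni ℓ n P :=
  ⟨fun h => ⟨h.1, h.2, h.3⟩, fun h => ⟨h.1, h.2, h.3⟩⟩

section one

variable {k K : Type} [Field k] [Finite k] [Field K] [Algebra k K] [FF.IsFF k K]

theorem twistL_eq {P : FF.Place k K → ℤ[X]} {u : K} {G : ℤ[X]} (h : IsTwistL k P u G) :
    (G : PowerSeries ℤ) * eulerProd (fun v : FF.Place k K => v.deg)
      (fun v => (HT.tf P u v : PowerSeries ℤ)) = 1 := by
  unfold IsTwistL at h
  simp only [S.deg_eq] at h
  exact h

theorem weightSum_eq (ℓ n : ℕ) (P : FF.Place k K → ℤ[X]) (u : K) : weightSum ℓ n P u =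
    ∑ᶠ v : FF.Place k K, (if TH639.B3.chi v u = 1 then
      HT.dft ℓ n P v * ℓ ^ padicValNat ℓ v.deg else 0) := by
  classical
  unfold weightSum
  refine finsum_congr fun v => ?_
  have h : TH639.B3.chi v u = 1 ↔ Splits v u := R427.TW.chi_one_iff
  simp only [h, S.deg_eq]
  rfl

end one

theorem orderMod_eq {k : Type} [Field k] [Finite k] {ℓ : ℕ} [Fact ℓ.Prime]
    (hq : ℓ ∣ Nat.card k - 1) (G : ℤ[X]) : orderMod ℓ k G = (HT.rd ℓ G).rootMultiplicity 1 := by
  unfold orderMod
  rw [HT.card_mod hq, inv_one]

/-- the numerators of the cyclic coverings of the line are congruent to powers of `1 - X` -/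
theorem numerator_cong {κ : Type} [Field κ] [Finite κ] {ℓ : ℕ} [hl : Fact ℓ.Prime]
    (hq : ℓ ∣ Nat.card κ - 1) {r : ℕ} (hr : 0 < r) {c : Fin r → κ} (hc : Function.Injective c)
    {a : Fin r → ℕ} (ha : ∀ i, ¬ ℓ ∣ a i) {P : ℤ[X]} (h : IsCurveNumerator κ ℓ c a P) :
    P.coeff 0 = 1 ∧ P.map (Int.castRingHom (ZMod ℓ)) = (1 - X) ^ twiceGenus ℓ a := by
  obtain ⟨F, i1, i2, i3, i4, y, hy, htop, hP⟩ := h
  obtain ⟨hFF, hcF⟩ := HT.cyc_ff hq hr hc ha hy htop
  exact ⟨HT.num_cc hcF hP, HT.zeta_cyc hq hr hc ha hy htop hP⟩

theorem card_res_mod {k K : Type} [Field k] [Finite k] [Field K] [Algebra k K] [FF.IsFF k K] {ℓ : ℕ}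
    (hq : ℓ ∣ Nat.card k - 1) (v : FF.Place k K) : ℓ ∣ Nat.card (S.Res v) - 1 := by
  rw [Pool.Agent.Y701.PE.card_res v]
  have h1 := Nat.sub_dvd_pow_sub_pow (Nat.card k) 1 v.deg
  rw [one_pow] at h1
  exact hq.trans h1

theorem superelliptic {k K : Type} [Field k] [Finite k] [Field K] [Algebra k K] [FF.IsFF k K]
    {ℓ : ℕ} [hl : Fact ℓ.Prime] (hq : ℓ ∣ Nat.card k - 1) {r : ℕ} (hr : 0 < r) {f : Fin r → K}
    (hf : Function.Injective f) {a : Fin r → ℕ} (ha : ∀ i, ¬ ℓ ∣ a i) :
    (∃ P : FF.Place k K → ℤ[X], IsSuperelliptic ℓ f a P) ∧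
    ∀ P : FF.Place k K → ℤ[X], IsSuperelliptic ℓ f a P → IsUnipotent ℓ (twiceGenus ℓ a) P ∧
      ∀ v, IsGood v f → (P v).map (Int.castRingHom (ZMod ℓ)) = (1 - X) ^ twiceGenus ℓ a := by
  classical
  have hfin : ∀ v : FF.Place k K, Finite (S.Res v) := fun v => by
    have h1 : Finite v.RF := Module.finite_of_finite k
    exact h1
  constructor
  · have hex : ∀ v : FF.Place k K, ∃ P : ℤ[X], IsGood v f →
        IsCurveNumerator (S.Res v) ℓ (fun i => S.red v (f i)) a P := by
      intro v
      by_cases hv : IsGood v f
      · have := hfin v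
        obtain ⟨P, hP⟩ := HT.exists_curve (card_res_mod hq v) hr hv.2 ha
        exact ⟨P, fun _ => hP⟩
      · exact ⟨0, fun h => absurd h hv⟩
    choose P hP using hex
    refine ⟨fun v => if IsGood v f then P v else 1, ?_, ?_⟩
    · intro v hv
      rw [if_pos hv]
      exact hP v hv
    · intro v hv
      rw [if_neg hv]
      exact ⟨by simp, 0, Nat.zero_le _, by simp⟩
  · intro P hP
    have h1 : ∀ v, IsGood v f → (P v).coeff 0 = 1 ∧
        (P v).map (Int.castRingHom (ZMod ℓ)) = (1 - X) ^ twiceGenus ℓ a := by
      intro v hv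
      have := hfin v
      exact numerator_cong (card_res_mod hq v) hr hv.2 ha (hP.good v hv)
    refine ⟨⟨?_, ?_, ?_⟩, fun v hv => (h1 v hv).2⟩
    · intro v
      by_cases hv : IsGood v f
      · exact (h1 v hv).1
      · exact (hP.bad v hv).1
    · intro v
      by_cases hv : IsGood v f
      · exact ⟨_, le_rfl, (h1 v hv).2⟩
      · exact (hP.bad v hv).2
    · refine (HT.good_finite (k := k) hf).subset ?_
      intro v hv hg
      exact hv (h1 v hg).2

theorem ord_le_mod {k K : Type} [Field k] [Finite k] [Field K] [Algebra k K] [FF.IsFF k K]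
    {ℓ n : ℕ} [hl : Fact ℓ.Prime] (hq : ℓ ∣ Nat.card k - 1) {P : FF.Place k K → ℤ[X]}
    (hP : IsUnipotent ℓ n P) {u : K} {G : ℤ[X]} (hG : IsTwistL k P u G) :
    order k G ≤ orderMod ℓ k G := by
  rw [orderMod_eq hq]
  exact HT.order_le_mod hq (HT.rd_ne hP.constant (twistL_eq hG))

/-- the polynomials which are not the discriminant of a reduced form -/
theorem controls_of {k : Type} [Field k] [Finite k] (h6 : (6 : k) ≠ 0) (hq : 3 ∣ Nat.card k - 1)
    {D : k[X]} (hs : Squarefree D) (ho : Odd D.natDegree)
    (hno : ¬ Pool.Agent.N874.DH.HasForm D.natDegree D) : Controls k D := by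
  have : Fact (Nat.Prime 3) := ⟨Nat.prime_three⟩
  have hu : el D ≠ 0 := Pool.Agent.W309.RF.A_ne hs.ne_zero
  have hnr := Pool.Agent.N874.DH.nrel_of_noForm h6 hs ho hno
  refine ⟨?_, ?_⟩
  · intro n P hP G hG
    rw [orderMod_eq hq, weightSum_eq]
    exact HT.order_exact h6 hq hs ho hno (uni_iff.1 hP) (twistL_eq hG)
  · intro L _ _ _ _ hL n P hP G hG
    obtain ⟨L', i1, i2, i3, i4, t1, t2, hfd, hgal, ⟨N, hN⟩, hram⟩ := hL
    have hfdKL : FiniteDimensional (RatFunc k) L := Module.Finite.left (RatFunc k) L L'
    have hFFL : FF.IsFF k L := isFF_of_finite (K := RatFunc k)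
    have hnL := HT.nrel_ext (L := L) (L' := L') h6 hq hu hnr hN
      (fun v hv w e he hov => hram v hv w e ⟨he, hov⟩)
    refine ⟨ord_le_mod hq hP hG, ?_⟩
    rw [orderMod_eq hq, weightSum_eq]
    exact HT.order_le' (by decide) hq hnL (uni_iff.1 hP) (twistL_eq hG)

theorem nonVanishing_of {k : Type} [Field k] [Finite k] (h6 : (6 : k) ≠ 0)
    (hq : 3 ∣ Nat.card k - 1) {D : k[X]} (hD : D ≠ 0) (hc : Controls k D)
    {B : Finset (FF.Place k (RatFunc k))} (hB : ∀ v ∈ B, ¬ Splits v (el D)) :
    NonVanishing k B D := by
  have : Fact (Nat.Prime 3) := ⟨Nat.prime_three⟩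
  have hu : el D ≠ 0 := Pool.Agent.W309.RF.A_ne hD
  refine ⟨?_, ?_⟩
  · intro n P hP hPB G hG
    have h1 := ord_le_mod hq hP hG
    have h2 := hc.1 n P hP G hG
    have h3 : weightSum 3 n P (el D) = 0 := by
      unfold weightSum
      rw [finsum_congr (g := fun _ => 0), finsum_zero]
      intro v
      split_ifs with h
      · have hv : v ∉ B := fun hv => hB v hv h
        rw [hPB v hv, HT.natDegree_lin_pow, Nat.sub_self, zero_mul]
      · rfl
    omega
  · intro L _ _ _ _ hL n P hP hPB G hG
    obtain ⟨h1, h2⟩ := hc.2 L hL n P hP G hG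
    obtain ⟨L', i1, i2, i3, i4, t1, t2, hfd, hgal, ⟨N, hN⟩, hram⟩ := hL
    have hfdKL : FiniteDimensional (RatFunc k) L := Module.Finite.left (RatFunc k) L L'
    have hFFL : FF.IsFF k L := isFF_of_finite (K := RatFunc k)
    rw [weightSum_eq, HT.sum_zero (L' := L') h6 hu hN (n := n) (P := P) (by
      intro w hw
      obtain ⟨v, hv, e, he, hov⟩ := hPB w hw
      exact ⟨v, e, he, hov, hB v hv⟩)] at h2
    omega

end proof

/-- Let `k` be a finite field with `q` elements, of characteristic at least five, with `3 ∣ q - 1`.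

Let `B` be a finite set of places of `k(t)`. The squarefree polynomials `D` of odd degree `n` such that no
place in `B` splits in `k(t)(√D)` are a positive proportion of all the polynomials of degree `n`. At
least half of them, `n → ∞` (precisely: at least `1 / 2 - ε` of them, for all `ε > 0` and `n ≥ n(ε)`),
have the properties `Controls` and `NonVanishing`: for all the systems of Euler factors over `k(t)` which are
unipotent modulo three, with bad places in `B`, the `L`-function of the twist by `D` does not vanish at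
`1 / q` and its value there is prime to three; the same holds over the extensions of three-power
degree in which no place ramifies which splits in `k(t)(√D)`; and for all unipotent systems the order
of vanishing modulo three is given by an explicit sum over the bad places which split in `k(t)(√D)`.

The unipotent systems include the Euler factors of the Jacobians of all the curves
`y ^ 3 = ∏ (x - f_i) ^ a_i` over function fields `K` over `k`, for example `K = k(t)`, with different
`f_1, …, f_r` in `K` and `a_i` prime to three: there are systems `P` as in `IsSuperelliptic`, and all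
these systems are unipotent modulo three, with exponent twice the genus at all the places where the
`f_i` are regular with different values. -/
theorem result (k : Type) [Field k] [Finite k] (h6 : (6 : k) ≠ 0) (hq : 3 ∣ Nat.card k - 1) :
    (∀ B : Finset (FF.Place k (RatFunc k)),
      (∃ c : ℝ, 0 < c ∧ ∀ᶠ n : ℕ in atTop, Odd n →
        c * (Nat.card k : ℝ) ^ n ≤ ((NonSplitTwists B n).ncard : ℝ)) ∧
      ∀ ε : ℝ, 0 < ε → ∀ᶠ n : ℕ in atTop, Odd n →
        (1 / 2 - ε) * ((NonSplitTwists B n).ncard : ℝ) ≤
          (({D ∈ NonSplitTwists B n | Controls k D ∧ NonVanishing k B D}.ncard : ℕ) : ℝ)) ∧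
    ∀ (K : Type) [Field K] [Algebra k K], IsCurveField k K →
      ∀ (r : ℕ) (f : Fin r → K) (a : Fin r → ℕ), 0 < r → Function.Injective f → (∀ i, ¬ 3 ∣ a i) →
        (∃ P : FF.Place k K → ℤ[X], IsSuperelliptic 3 f a P) ∧
        ∀ P : FF.Place k K → ℤ[X], IsSuperelliptic 3 f a P → IsUnipotent 3 (twiceGenus 3 a) P ∧
          ∀ v, IsGood v f →
            (P v).map (Int.castRingHom (ZMod 3)) = (1 - X) ^ twiceGenus 3 a := by
  classical
  refine ⟨?_, ?_⟩
  · intro B
    have hNS : ∀ n, NonSplitTwists B n = Pool.Agent.V8H30.HT.NS B n := fun n => rfl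
    obtain ⟨h1, h2⟩ := Pool.Agent.V8H30.HT.ns_count h6 B
    refine ⟨?_, ?_⟩
    · obtain ⟨c, hc, h⟩ := h1
      refine ⟨c, hc, ?_⟩
      filter_upwards [h] with n hn ho
      exact hn ho
    · intro ε hε
      filter_upwards [h2 ε hε] with n hn ho
      rw [hNS]
      refine (hn ho).trans ?_
      have hfin : (Pool.Agent.V8H30.HT.NS B n).Finite := by
        refine (Pool.Agent.N874.DH.Eng.fin_deg Pool.Agent.N874.DH.cnt n).subset ?_
        rintro D ⟨h1, h2, -⟩
        exact ⟨h2.ne_zero, h1⟩
      have hsub : {D ∈ Pool.Agent.V8H30.HT.NS B n | ¬ Pool.Agent.N874.DH.HasForm n D} ⊆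
          {D ∈ Pool.Agent.V8H30.HT.NS B n | Controls k D ∧ NonVanishing k B D} := by
        rintro D ⟨h3, h4⟩
        refine ⟨h3, ?_⟩
        obtain ⟨h5, h7, h8⟩ := h3
        have hc := controls_of h6 hq h7 (by rw [h5]; exact ho) (by rw [h5]; exact h4)
        exact ⟨hc, nonVanishing_of h6 hq h7.ne_zero hc h8⟩
      exact_mod_cast Set.ncard_le_ncard hsub (hfin.subset (Set.sep_subset _ _))
  · intro K _ _ hK r f a hr hf ha
    have : Fact (Nat.Prime 3) := ⟨Nat.prime_three⟩
    have i1 : FF.IsFF k K := ⟨hK.essFiniteType, hK.trdeg_eq_one⟩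
    exact superelliptic hq hr hf ha

end Pool.Agent.Results.MP_1d384c_nt.HalfOfTwistsAllDimensions
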