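import Pool.Agent.V8H1.MF.Twr

/-!
# The rank conjecture for a fixed twist of `X_0(49)` over all the layers of infinite towers of totally
# real multiquadratic fields

`D ≥ 1` runs over the squarefree numbers with all prime factors `≡ 1 mod 4`, and `E_D` is the quadratic
twist by `D` of `X_0(49) : y² + x y = x³ - x² - 2 x - 1`. For `d_1, …, d_n` and `M` in the class the
criterion for `(d, M)` says that for all the `2 ^ n` squarefree parts `M_T` of the `M ∏_{i ∈ T} d_i` the
matrix `mat M_T` over `𝔽₂` (of the quadratic residue symbols between the prime factors of `M_T` which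
split in `ℚ(√-7)` and of the quartic symbols of `-7`) is not singular. The theorem says:
* if `F = ℚ(√d_1, …, √d_n)` has degree `2 ^ n` and the criterion holds for `(d, M)`, then for at least the
  proportion `c ^ (2 ^ n)` of the `D` of the class, `c = ∏_{i ≥ 0} (1 - 2^{-(2i+1)}) = 0.4194...`, the field
  `F(√D)` has degree `2 ^ (n + 1)`, the criterion holds again, and the `L`-function of `E_M` over `F(√D)`,
  which is entire, does not vanish at `s = 1` and `E_M(F(√D))` is finite: order and rank are zero;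
* for every `M` with `det (mat M) ≠ 0` there is an infinite tower `ℚ = F_0 ⊂ F_1 ⊂ F_2 ⊂ …` of multiquadratic
  subfields of `ℝ`, `[F_n : ℚ] = 2 ^ n`, such that order and rank of `E_M` are zero over all the `F_n`;
* this applies to at least the proportion `c` of the `M` of the class.

The proof: `L(E_M/F, s) = ∏_T L(E_{M_T}/ℚ, s)` and the points over `F` by the action of the Galois group, in
`Pool/Agent/V8H1/MF`; Kummer theory for the multiquadratic fields. The statements over `ℚ` (nonvanishing
and finiteness for `det (mat D) ≠ 0`, and the joint law for the twists by several numbers) are from the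
starting files `MP_4a9ea6_nt/TwoPartTwistsX49` and `MP_03e5d0_nt/FullClassX49`.
-/

set_option autoImplicit false

open NumberField WeierstrassCurve

namespace Pool.Agent.Results.MP_1d384c_nt.MultiquadraticTowers

open Pool.Agent.Results.MP_4a9ea6_nt.TwoPartTwistsX49 (twist mat)

/-- the class: `D` is squarefree and all its prime factors are `≡ 1 mod 4` -/
def Cls (D : ℕ) : Prop := Squarefree D ∧ ∀ p ∈ D.primeFactors, p % 4 = 1

/-- The curve `E_D` over `F`, with the equation `y² + x y = x³ - (3 D + 1)/4 x² - 2 D² x - D³`. -/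
abbrev curve (F : Type) [Field F] (D : ℕ) : WeierstrassCurve F :=
  (twist D).map (Int.castRingHom F)

open Classical in
/-- The rank of the group of the points. -/
noncomputable def rank {F : Type} [Field F] (W : WeierstrassCurve F) : ℕ :=
  Module.finrank ℤ W.toAffine.Point

/-- The order of vanishing at `s = 1` of the `L`-function of `W` over the number field `F` (which has an
entire continuation) is equal to the rank of `W` over `F`, and both are zero; and the group of the points
is finite. -/
def RankPartZero {F : Type} [Field F] [NumberField F] (W : WeierstrassCurve F) : Prop :=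
  Finite W.toAffine.Point ∧ rank W = 0 ∧
    ∃ Λ : ℂ → ℂ, Differentiable ℂ Λ ∧ (∀ s : ℂ, 2 < s.re → Λ s = W.LSeries s) ∧
      analyticOrderAt Λ 1 = (rank W : ℕ∞)

/-- the squarefree part of `N`: the product of the primes with an odd exponent in `N` -/
def sqfPart (N : ℕ) : ℕ := ∏ p ∈ N.primeFactors.filter (fun p => Odd (N.factorization p)), p

/-- the criterion: for all the squarefree parts `M_T` of the `M ∏_{i ∈ T} d_i` the matrix `mat M_T` is
not singular -/
def Criterion {n : ℕ} (d : Fin n → ℕ) (M : ℕ) : Prop :=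
  ∀ T : Finset (Fin n), (mat (sqfPart (M * ∏ i ∈ T, d i))).det ≠ 0

/-- the subfield `ℚ(√d_1, …, √d_n)` of the real numbers -/
noncomputable def field {n : ℕ} (d : Fin n → ℕ) : IntermediateField ℚ ℝ :=
  IntermediateField.adjoin ℚ {x : ℝ | ∃ i, x ^ 2 = (d i : ℝ)}

open Classical in
/-- the number of the `D ≤ X` of the class with the property `Q` -/
noncomputable def num (Q : ℕ → Prop) (X : ℕ) : ℕ :=
  ((Finset.Icc 1 X).filter fun D => Cls D ∧ Q D).card

/-- the constant `0.4194...` -/
noncomputable def c : ℝ := ∏' i : ℕ, (1 - (1 / 2 : ℝ) ^ (2 * i + 1))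

section proof

open Pool.Agent.V8H1.MF

lemma rank_zero {F : Type} [Field F] {W : WeierstrassCurve F} (h : Finite W.toAffine.Point) :
    rank W = 0 := by
  classical
  unfold rank
  rw [Module.finrank_eq_zero_iff_isTorsion]
  intro x
  have h1 : Nat.card W.toAffine.Point ≠ 0 := Nat.card_ne_zero.2 ⟨⟨0⟩, h⟩
  refine ⟨⟨(Nat.card W.toAffine.Point : ℤ), ?_⟩, ?_⟩
  · rw [mem_nonZeroDivisors_iff_ne_zero]
    exact_mod_cast h1
  · show (Nat.card W.toAffine.Point : ℤ) • x = 0
    rw [natCast_zsmul]
    exact card_nsmul_eq_zero'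

lemma part_of {F : Type} [Field F] [NumberField F] {D : ℕ} (h : RP F D) :
    RankPartZero (curve F D) := by
  obtain ⟨⟨Λ, h1, h2, h3⟩, h4⟩ := h
  refine ⟨h4, rank_zero h4, Λ, h1, h2, ?_⟩
  rw [rank_zero h4, Nat.cast_zero]
  exact analyticOrderAt_eq_zero.2 (Or.inr h3)

lemma field_KK (d : ℕ → ℕ) (n : ℕ) : field (cut d n) = KK d n := by
  unfold field KK
  congr 1
  ext x
  constructor
  · rintro ⟨i, hi⟩
    exact ⟨i, i.2, hi⟩
  · rintro ⟨i, hi, hx⟩
    exact ⟨⟨i, hi⟩, hx⟩

lemma rp_stage {M : ℕ} (hM : Cls M) {d : ℕ → ℕ} {n : ℕ} (h : St M d n) [NumberField (KK d n)] :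
    RP (KK d n) M :=
  rp_of (mq_KK h.fam h.fin) hM fun T => gz_det (fam_DD (mq_KK h.fam h.fin) hM T) (h.det T)

lemma part_stage {M : ℕ} (hM : Cls M) {d : ℕ → ℕ} {n : ℕ} (h : St M d n) :
    Module.finrank ℚ (field (cut d n)) = 2 ^ n ∧ Criterion (cut d n) M ∧
      ∃ _ : NumberField (field (cut d n)), RankPartZero (curve (field (cut d n)) M) := by
  rw [field_KK]
  have hnf := h.nf
  exact ⟨h.fin, h.det, hnf, part_of (rp_stage hM h)⟩

/-- the extension of a finite sequence -/
def ext' {n : ℕ} (d : Fin n → ℕ) : ℕ → ℕ := fun i => if h : i < n then d ⟨i, h⟩ else 1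

lemma cut_ext {n : ℕ} (d : Fin n → ℕ) : cut (ext' d) n = d := by
  funext i
  unfold cut ext'
  rw [dif_pos i.2]

lemma cut_upd {n : ℕ} (d : Fin n → ℕ) (D : ℕ) :
    cut (Function.update (ext' d) n D) (n + 1) = Fin.snoc d D := by
  funext i
  refine Fin.lastCases ?_ (fun i => ?_) i
  · rw [Fin.snoc_last]
    unfold cut
    exact Function.update_self ..
  · rw [Fin.snoc_castSucc]
    have h1 := congrFun (cut_ext d) i
    unfold cut at h1 ⊢
    rw [Fin.val_castSucc, Function.update_of_ne (by have := i.2; omega), h1]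

end proof

/-- `[F : ℚ] = 2 ^ n` for `F = ℚ(√d_1, …, √d_n)`, the criterion holds, and order and rank of `E_M` over
`F` are zero -/
def Stage {n : ℕ} (d : Fin n → ℕ) (M : ℕ) : Prop :=
  Module.finrank ℚ (field d) = 2 ^ n ∧ Criterion d M ∧
    ∃ _ : NumberField (field d), RankPartZero (curve (field d) M)

open Pool.Agent.V8H1.MF in
theorem result :
    (∀ (n : ℕ) (d : Fin n → ℕ) (M : ℕ), (∀ i, Cls (d i)) → Cls M →
      Module.finrank ℚ (field d) = 2 ^ n → Criterion d M →
      ∀ ε : ℝ, 0 < ε → ∃ X₀ : ℕ, ∀ X : ℕ, X₀ ≤ X →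
        (c ^ 2 ^ n - ε) * (num (fun _ => True) X : ℝ) ≤
          (num (fun D => Stage (Fin.snoc d D : Fin (n + 1) → ℕ) M) X : ℝ)) ∧
    (∀ M : ℕ, Cls M → (mat M).det ≠ 0 → ∃ d : ℕ → ℕ, (∀ i, Cls (d i)) ∧
      ∀ n : ℕ, Stage (fun i : Fin n => d i) M) ∧
    (∀ ε : ℝ, 0 < ε → ∃ X₀ : ℕ, ∀ X : ℕ, X₀ ≤ X →
      (c - ε) * (num (fun _ => True) X : ℝ) ≤ (num (fun M => (mat M).det ≠ 0) X : ℝ)) ∧
    0.4194 < c ∧ c < 0.4195 := by
  classical
  have hc1 : 0.4194 < c := Pool.Agent.Results.MP_03e5d0_nt.FullClassX49.result.2.2.1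
  have hc2 : c < 0.4195 := Pool.Agent.Results.MP_03e5d0_nt.FullClassX49.result.2.2.2
  refine ⟨?_, ?_, ?_, hc1, hc2⟩
  · intro n d M hd hM hfin hcrit ε hε
    have hst : St M (ext' d) n := by
      constructor
      · intro i hi
        have := hd ⟨i, hi⟩
        unfold ext'
        rw [dif_pos hi]
        exact this
      · rw [← field_KK, cut_ext]
        exact hfin
      · rw [cut_ext]
        exact hcrit
    obtain ⟨X₀, hX₀⟩ := hst.step_many hM ε hε
    refine ⟨X₀, fun X hX => (hX₀ X hX).trans ?_⟩
    have h1 := num_mono (P := fun D => St M (Function.update (ext' d) n D) (n + 1))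
      (Q := fun D => Stage (Fin.snoc d D : Fin (n + 1) → ℕ) M)
      (fun D _ hD => by
        have h2 := part_stage hM hD
        rw [cut_upd] at h2
        exact h2) X
    exact_mod_cast h1
  · intro M hM hdet
    obtain ⟨d, hd⟩ := tower hM hdet
    exact ⟨d, fun i => (hd (i + 1)).fam i (Nat.lt_succ_self i), fun n => part_stage hM (hd n)⟩
  · intro ε hε
    have hone : Cls 1 := ⟨squarefree_one, by simp⟩
    have h1 := (count {1} (fun M hM => by rw [Finset.mem_singleton.1 hM]; exact hone)
      (Q := fun M => (mat M).det ≠ 0) (fun D hD h => by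
        have h2 := h 1 (Finset.mem_singleton_self 1)
        rw [one_mul, sf_self hD.1] at h2
        exact h2) (N := 1) (by simp)).1 ε hε
    rw [pow_one] at h1
    exact h1

end Pool.Agent.Results.MP_1d384c_nt.MultiquadraticTowers
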