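import Pool.Agent.V8H1.MF.Twr

/-!
# The rank conjecture for the quadratic twists of `X_0(49)` over totally real multiquadratic fields of
# every degree: an explicit criterion, and a positive proportion of the twists over every field

`D ≥ 1` runs over the squarefree numbers with all prime factors `≡ 1 mod 4`, and `E_D` is the quadratic
twist by `D` of `X_0(49) : y² + x y = x³ - x² - 2 x - 1`. Let `F = ℚ(√d_1, …, √d_n)`, of degree `2 ^ n`,
all the `d_i` in the class; for a set `T` of indices and `M` in the class let `M_T` be the squarefree part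
of `M ∏_{i ∈ T} d_i`. The theorem says, with no hypothesis on the rank or on `Ш`:
* if the `2 ^ n` matrices `mat M_T` over `𝔽₂` of the quadratic residue symbols between the prime factors of
  `M_T` which split in `ℚ(√-7)` (and of the quartic symbols of `-7`) are not singular, then `L(E_M/F, s)` is
  entire, does not vanish at `s = 1`, and `E_M(F)` is finite: order and rank are both zero;
* so, for every field `F` as above, the twists `E_D` by at least the proportion `c ^ (2 ^ n)` of the `D` of
  the class have order and rank zero over `F`, `c = ∏_{i ≥ 0} (1 - 2^{-(2i+1)}) = 0.4194...`, and there are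
  at least `a X / √(log X)` such `D ≤ X`, `a > 0`.

The L-series is the one of Mathlib, the Dirichlet series over the ideals of `F` with the local factors of
the minimal models at all the places. The proof: splitting of the primes in `F` by the decomposition
and inertia groups, the minimal models of `E_M` at the places of `F` (`E_M` acquires good reduction at some
of the places where it is bad over `ℚ`), and so `L(E_M/F, s) = ∏_T L(E_{M_T}/ℚ, s)` for `Re s > 2`; the
points by the action of the Galois group. The statements over `ℚ` (nonvanishing and finiteness for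
`det (mat D) ≠ 0`, and the joint law for the twists by several numbers) are from the starting files
`MP_4a9ea6_nt/TwoPartTwistsX49` and `MP_03e5d0_nt/FullClassX49`.
-/

set_option autoImplicit false

open NumberField WeierstrassCurve

namespace Pool.Agent.Results.MP_1d384c_nt.RankZeroMultiquadratic

open Pool.Agent.Results.MP_4a9ea6_nt.TwoPartTwistsX49 (twist mat)

/-- the class: `D` is squarefree and all its prime factors are `≡ 1 mod 4` -/
def Cls (D : ℕ) : Prop := Squarefree D ∧ ∀ p ∈ D.primeFactors, p % 4 = 1

/-- The curve `E_D` over `F`, with the equation `y² + x y = x³ - (3 D + 1)/4 x² - 2 D² x - D³`. -/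
abbrev curve (F : Type) [Field F] (D : ℕ) : WeierstrassCurve F :=
  (twist D).map (Int.castRingHom F)

open Classical in
/-- The rank of the group of the points. -/
noncomputable def rank {F : Type} [Field F] (W : WeierstrassCurve F) : ℕ :=
  Module.finrank ℤ W.toAffine.Point

/-- The order of vanishing at `s = 1` of the `L`-function of `W` over the number field `F` (which has an
entire continuation) is equal to the rank of `W` over `F`, and both are zero; and the group of the points
is finite. -/
def RankPartZero {F : Type} [Field F] [NumberField F] (W : WeierstrassCurve F) : Prop :=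
  Finite W.toAffine.Point ∧ rank W = 0 ∧
    ∃ Λ : ℂ → ℂ, Differentiable ℂ Λ ∧ (∀ s : ℂ, 2 < s.re → Λ s = W.LSeries s) ∧
      analyticOrderAt Λ 1 = (rank W : ℕ∞)

/-- `F = ℚ(√d_1, …, √d_n)` and `[F : ℚ] = 2 ^ n` -/
def IsMultiquadratic (F : Type) [Field F] [NumberField F] {n : ℕ} (d : Fin n → ℕ) : Prop :=
  (∃ s : Fin n → F, (∀ i, s i ^ 2 = (d i : F)) ∧
    IntermediateField.adjoin ℚ (Set.range s) = ⊤) ∧ Module.finrank ℚ F = 2 ^ n

/-- the squarefree part of `N`: the product of the primes with an odd exponent in `N` -/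
def sqfPart (N : ℕ) : ℕ := ∏ p ∈ N.primeFactors.filter (fun p => Odd (N.factorization p)), p

/-- the criterion: for all the squarefree parts `M_T` of the `M ∏_{i ∈ T} d_i` the matrix `mat M_T` is
not singular -/
def Criterion {n : ℕ} (d : Fin n → ℕ) (M : ℕ) : Prop :=
  ∀ T : Finset (Fin n), (mat (sqfPart (M * ∏ i ∈ T, d i))).det ≠ 0

open Classical in
/-- the number of the `D ≤ X` of the class with the property `Q` -/
noncomputable def num (Q : ℕ → Prop) (X : ℕ) : ℕ :=
  ((Finset.Icc 1 X).filter fun D => Cls D ∧ Q D).card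

/-- the constant `0.4194...` -/
noncomputable def c : ℝ := ∏' i : ℕ, (1 - (1 / 2 : ℝ) ^ (2 * i + 1))

section proof

open Pool.Agent.V8H1.MF

lemma rank_zero {F : Type} [Field F] {W : WeierstrassCurve F} (h : Finite W.toAffine.Point) :
    rank W = 0 := by
  classical
  unfold rank
  rw [Module.finrank_eq_zero_iff_isTorsion]
  intro x
  have h1 : Nat.card W.toAffine.Point ≠ 0 := Nat.card_ne_zero.2 ⟨⟨0⟩, h⟩
  refine ⟨⟨(Nat.card W.toAffine.Point : ℤ), ?_⟩, ?_⟩
  · rw [mem_nonZeroDivisors_iff_ne_zero]
    exact_mod_cast h1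
  · show (Nat.card W.toAffine.Point : ℤ) • x = 0
    rw [natCast_zsmul]
    exact card_nsmul_eq_zero'

lemma part_of {F : Type} [Field F] [NumberField F] {D : ℕ} (h : RP F D) :
    RankPartZero (curve F D) := by
  obtain ⟨⟨Λ, h1, h2, h3⟩, h4⟩ := h
  refine ⟨h4, rank_zero h4, Λ, h1, h2, ?_⟩
  rw [rank_zero h4, Nat.cast_zero]
  exact analyticOrderAt_eq_zero.2 (Or.inr h3)

end proof

open Pool.Agent.V8H1.MF in
theorem result :
    (∀ (n : ℕ) (d : Fin n → ℕ) (F : Type) [Field F] [NumberField F], (∀ i, Cls (d i)) →
      IsMultiquadratic F d →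
      (∀ M : ℕ, Cls M → Criterion d M → RankPartZero (curve F M)) ∧
      (∀ ε : ℝ, 0 < ε → ∃ X₀ : ℕ, ∀ X : ℕ, X₀ ≤ X →
        (c ^ 2 ^ n - ε) * (num (fun _ => True) X : ℝ) ≤
          (num (fun D => RankPartZero (curve F D)) X : ℝ)) ∧
      ∃ (a : ℝ) (X₀ : ℕ), 0 < a ∧ ∀ X : ℕ, X₀ ≤ X →
        a * X / Real.sqrt (Real.log X) ≤ (num (fun D => RankPartZero (curve F D)) X : ℝ)) ∧
    0.4194 < c ∧ c < 0.4195 := by
  classical
  have hc1 : 0.4194 < c := Pool.Agent.Results.MP_03e5d0_nt.FullClassX49.result.2.2.1
  have hc2 : c < 0.4195 := Pool.Agent.Results.MP_03e5d0_nt.FullClassX49.result.2.2.2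
  refine ⟨?_, hc1, hc2⟩
  intro n d F _ _ hd hF
  obtain ⟨⟨s, hs, htop⟩, hdeg⟩ := hF
  have hmq : MQ F d s := ⟨fun i => (hd i).1, fun i => (fam_q4.1 (hd i)).2, hs, htop, hdeg⟩
  have key : ∀ M : ℕ, Cls M → Criterion d M → RankPartZero (curve F M) := fun M hM h =>
    part_of (rp_of hmq hM fun T => gz_det (fam_DD hmq hM T) (h T))
  set S : Finset ℕ := Finset.univ.image fun T : Finset (Fin n) => DD d 1 T with hS
  have hone : Cls 1 := ⟨squarefree_one, by simp⟩
  have hSF : ∀ M ∈ S, Cls M := by
    intro N hN
    obtain ⟨T, -, rfl⟩ := Finset.mem_image.1 hN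
    exact fam_DD hmq hone T
  have hScard : S.card ≤ 2 ^ n := by
    refine Finset.card_image_le.trans ?_
    rw [Finset.card_univ, Fintype.card_finset, Fintype.card_fin]
  have h1 := count S hSF (Q := fun D => RankPartZero (curve F D)) (fun D hD h => by
    refine key D hD fun T => ?_
    have h2 := h (DD d 1 T) (Finset.mem_image.2 ⟨T, Finset.mem_univ _, rfl⟩)
    have h3 : sf (DD d 1 T * D) = DD d D T := by
      have h4 := sf_mul_sf (prod_ne hmq.ne T) hD.1.ne_zero
      rw [sf_self hD.1] at h4
      unfold DD
      rw [one_mul, h4, mul_comm]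
    rw [h3] at h2
    exact h2) hScard
  exact ⟨key, h1.1, h1.2⟩

end Pool.Agent.Results.MP_1d384c_nt.RankZeroMultiquadratic
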